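import Mathlib
import Pool.Agent.Q52.Hit

/-!
# Sumsets whose complement contains only short arithmetic progressions
-/

namespace Pool.Agent.Results.MP_4e2f3e_nt.ShortProgressions

open Pointwise Pool.Agent.Q52.Hit Filter Topology

/-- the finite construction. -/
theorem construct (N p K t : ℕ) (hN : N.Prime) (hp : p.Prime) (hp2 : p ≠ 2) (hKp : K ≤ p)
    (hbig : 1000 ≤ N) (hpt : 100 * (p + t) ^ 2 ≤ N)
    (ht : (N : ℝ) ^ 2 * (1 - (K * p : ℝ) / (2 * N)) ^ t < 1) :
    ∃ A : Finset (ZMod N), (N : ℝ) / 4 < A.card ∧ ((A + A).card : ℝ) ≤ 99 / 100 * N ∧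
      ∀ a d : ZMod N, d ≠ 0 → ¬ ∀ i : ℕ, i < K → a + (i : ZMod N) * d ∉ A + A := by
  classical
  have hNf : Fact N.Prime := ⟨hN⟩
  have hNz : NeZero N := ⟨hN.ne_zero⟩
  have hp0 : 0 < p := hp.pos
  have hp2N : 100 * p ^ 2 ≤ N := by
    have : p ^ 2 ≤ (p + t) ^ 2 := Nat.pow_le_pow_left (by omega) 2
    omega
  have hpN : p ≤ N := by nlinarith
  have hKN : K ≤ N := hKp.trans hpN
  obtain ⟨b, hb⟩ : ∃ b, b = N / 4 + 1 := ⟨_, rfl⟩
  obtain ⟨o, ho⟩ : ∃ o : ℤ, o = ((3 * N / 10 + 1 : ℕ) : ℤ) := ⟨_, rfl⟩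
  let Y : Finset ℤ := ET p o
  let G : Finset ℤ := Finset.Icc 0 ((7 * N / 10 : ℕ) : ℤ)
  have hGcard : G.card = 7 * N / 10 + 1 := by
    simp only [G, Int.card_Icc]
    omega
  let V : ZMod N × ZMod N → Finset ℤ := fun q =>
    (Finset.range K).image (fun i : ℕ => ((q.1 + (i : ZMod N) * q.2).val : ℤ))
  let I : Finset (ZMod N × ZMod N) := Finset.univ.filter
    (fun q => q.2 ≠ 0 ∧ ∀ i : ℕ, i < K → 2 * b - 1 ≤ (q.1 + (i : ZMod N) * q.2).val)
  let S : ZMod N × ZMod N → Finset ℤ := fun q => diffs (V q) Y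
  have hVcard : ∀ q ∈ I, (V q).card = K := by
    intro q hq
    have hq2 : q.2 ≠ 0 := (Finset.mem_filter.1 hq).2.1
    have hinj : Set.InjOn (fun i : ℕ => ((q.1 + (i : ZMod N) * q.2).val : ℤ))
        (Finset.range K : Set ℕ) := by
      intro i hi j hj hij
      have hi' : i < K := by simpa using hi
      have hj' : j < K := by simpa using hj
      have h1 : (q.1 + (i : ZMod N) * q.2).val = (q.1 + (j : ZMod N) * q.2).val := by
        have hij2 : ((q.1 + (i : ZMod N) * q.2).val : ℤ) = ((q.1 + (j : ZMod N) * q.2).val : ℤ) :=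
          hij
        exact_mod_cast hij2
      have h2 := ZMod.val_injective N h1
      have h3 : ((i : ZMod N) - j) * q.2 = 0 := by linear_combination h2
      rcases mul_eq_zero.1 h3 with h4 | h4
      · have h5 := (ZMod.natCast_eq_natCast_iff i j N).1 (sub_eq_zero.1 h4)
        exact Nat.ModEq.eq_of_lt_of_lt h5 (by omega) (by omega)
      · exact absurd h4 hq2
    show ((Finset.range K).image _).card = K
    rw [Finset.card_image_of_injOn hinj, Finset.card_range]
  have hNr : (0 : ℝ) < N := by exact_mod_cast hN.pos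
  have hc1 : (K * p : ℝ) / (2 * N) ≤ 1 := by
    rw [div_le_one (by positivity)]
    have h1 : K * p ≤ 2 * N := by nlinarith
    exact_mod_cast h1
  have hS : ∀ q ∈ I, S q ⊆ G ∧ (K * p : ℝ) / (2 * N) * G.card ≤ ((S q).card : ℝ) := by
    intro q hq
    constructor
    · intro x hx
      show x ∈ Finset.Icc 0 ((7 * N / 10 : ℕ) : ℤ)
      change x ∈ diffs (V q) Y at hx
      unfold diffs at hx
      rw [Finset.mem_biUnion] at hx
      obtain ⟨v, hv, hx⟩ := hx
      rw [Finset.mem_image] at hx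
      obtain ⟨y, hy, rfl⟩ := hx
      change v ∈ (Finset.range K).image _ at hv
      rw [Finset.mem_image] at hv
      obtain ⟨i, hi, rfl⟩ := hv
      rw [Finset.mem_range] at hi
      have h1 := (Finset.mem_filter.1 hq).2.2 i hi
      have h2 := ZMod.val_lt (q.1 + (i : ZMod N) * q.2)
      have h3 := ET_bound hp0 o hy
      have h4 : (100 : ℤ) * p ^ 2 ≤ N := by exact_mod_cast hp2N
      rw [Finset.mem_Icc]
      constructor
      · have h5 : (2 * b - 1 : ℤ) ≤ ((q.1 + (i : ZMod N) * q.2).val : ℤ) := by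
          have : ((2 * b - 1 : ℕ) : ℤ) ≤ ((q.1 + (i : ZMod N) * q.2).val : ℤ) := by
            exact_mod_cast h1
          omega
        omega
      · omega
    · have h1 := diffs_card Y (ET_sidon hp hp2 o) (V q)
      rw [hVcard q hq, ET_card hp0 o] at h1
      have h2 : K * p ≤ 2 * (S q).card := by
        show K * p ≤ 2 * (diffs (V q) Y).card
        nlinarith
      have h3 : (K * p : ℝ) ≤ 2 * (S q).card := by exact_mod_cast h2
      have h4 : (G.card : ℝ) ≤ N := by
        have : G.card ≤ N := by rw [hGcard]; omega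
        exact_mod_cast this
      calc (K * p : ℝ) / (2 * N) * G.card ≤ (K * p : ℝ) / (2 * N) * N := by gcongr
        _ = (K * p : ℝ) / 2 := by field_simp
        _ ≤ _ := by linarith
  obtain ⟨Z, hZG, hZt, hZ⟩ := hitting G I S ((K * p : ℝ) / (2 * N)) hc1 hS
    (by rw [hGcard]; omega) t
  have hIcard : (I.card : ℝ) ≤ (N : ℝ) ^ 2 := by
    have h1 : I.card ≤ Fintype.card (ZMod N × ZMod N) := Finset.card_le_univ _
    rw [Fintype.card_prod, ZMod.card] at h1
    have h2 : I.card ≤ N ^ 2 := by rw [pow_two]; exact h1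
    exact_mod_cast h2
  have hunhit : I.filter (fun q => Disjoint (S q) Z) = ∅ := by
    rw [← Finset.card_eq_zero]
    have h1 : ((I.filter (fun q => Disjoint (S q) Z)).card : ℝ) < 1 := by
      refine hZ.trans_lt (lt_of_le_of_lt ?_ ht)
      apply mul_le_mul_of_nonneg_right hIcard
      apply pow_nonneg
      linarith
    have h2 : (I.filter (fun q => Disjoint (S q) Z)).card < 1 := by exact_mod_cast h1
    omega
  -- the set
  let W : Finset ℤ := Y ∪ Z
  have hWcard : W.card ≤ p + t := by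
    refine (Finset.card_union_le _ _).trans ?_
    have : Y.card = p := ET_card hp0 o
    omega
  have hWb : ∀ w ∈ W, 0 ≤ w ∧ w ≤ ((7 * N / 10 : ℕ) : ℤ) := by
    intro w hw
    rcases Finset.mem_union.1 hw with h | h
    · have h3 := ET_bound hp0 o h
      have h4 : (100 : ℤ) * p ^ 2 ≤ N := by exact_mod_cast hp2N
      constructor
      · omega
      · have h5 : (0 : ℤ) ≤ (p : ℤ) ^ 2 := by positivity
        omega
    · exact Finset.mem_Icc.1 (hZG h)
  let cast : ℤ → ZMod N := fun x => (x : ZMod N)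
  let B : Finset ℤ := Finset.Ico 0 (b : ℤ)
  refine ⟨(B ∪ W).image cast, ?_, ?_, ?_⟩
  · have h1 : (B.image cast).card = b := by
      rw [Finset.card_image_of_injOn]
      · simp [B]
      · intro x hx y hy hxy
        have hx' : 0 ≤ x ∧ x < b := by simpa [B] using hx
        have hy' : 0 ≤ y ∧ y < b := by simpa [B] using hy
        have h2 : (x : ZMod N) = (y : ZMod N) := hxy
        rw [ZMod.intCast_eq_intCast_iff] at h2
        have h3 : x % N = y % N := h2
        rw [Int.emod_eq_of_lt hx'.1 (by omega), Int.emod_eq_of_lt hy'.1 (by omega)] at h3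
        exact h3
    have h2 : b ≤ ((B ∪ W).image cast).card := by
      rw [← h1]
      exact Finset.card_le_card (Finset.image_subset_image Finset.subset_union_left)
    have h3 : (b : ℝ) ≤ ((B ∪ W).image cast).card := by exact_mod_cast h2
    have h4 : N < 4 * b := by omega
    have h5 : (N : ℝ) < 4 * b := by exact_mod_cast h4
    linarith
  · have hsub : (B ∪ W).image cast + (B ∪ W).image cast ⊆
        (Finset.Icc 0 ((N / 4 + 7 * N / 10 : ℕ) : ℤ)).image cast ∪
          (W.image cast + W.image cast) := by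
      intro x hx
      rw [Finset.mem_add] at hx
      obtain ⟨_, hu, _, hv, rfl⟩ := hx
      rw [Finset.mem_image] at hu hv
      obtain ⟨u, hu, rfl⟩ := hu
      obtain ⟨v, hv, rfl⟩ := hv
      have hub : ∀ u ∈ B ∪ W, 0 ≤ u ∧ u ≤ ((7 * N / 10 : ℕ) : ℤ) := by
        intro u hu
        rcases Finset.mem_union.1 hu with h | h
        · have hx' : 0 ≤ u ∧ u < b := by simpa [B] using h
          constructor
          · exact hx'.1
          · omega
        · exact hWb u h
      have hBb : ∀ u ∈ B, 0 ≤ u ∧ u < b := by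
        intro u h
        simpa [B] using h
      rcases Finset.mem_union.1 hu with hu1 | hu1
      · apply Finset.mem_union_left
        rw [Finset.mem_image]
        refine ⟨u + v, ?_, by simp [cast]⟩
        rw [Finset.mem_Icc]
        have h1 := hBb u hu1
        have h2 := hub v hv
        omega
      · rcases Finset.mem_union.1 hv with hv1 | hv1
        · apply Finset.mem_union_left
          rw [Finset.mem_image]
          refine ⟨u + v, ?_, by simp [cast]⟩
          rw [Finset.mem_Icc]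
          have h1 := hBb v hv1
          have h2 := hub u hu
          omega
        · apply Finset.mem_union_right
          exact Finset.add_mem_add (Finset.mem_image_of_mem _ hu1) (Finset.mem_image_of_mem _ hv1)
    have h1 : ((B ∪ W).image cast + (B ∪ W).image cast).card ≤
        (N / 4 + 7 * N / 10 + 1) + (p + t) ^ 2 := by
      refine (Finset.card_le_card hsub).trans ((Finset.card_union_le _ _).trans ?_)
      apply Nat.add_le_add
      · refine Finset.card_image_le.trans ?_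
        simp [Int.card_Icc]
      · refine Finset.card_add_le.trans ?_
        rw [pow_two]
        have h2 : (W.image cast).card ≤ p + t := Finset.card_image_le.trans hWcard
        exact Nat.mul_le_mul h2 h2
    have h2 : 100 * ((B ∪ W).image cast + (B ∪ W).image cast).card ≤ 99 * N := by
      omega
    have h3 : (100 : ℝ) * ((B ∪ W).image cast + (B ∪ W).image cast).card ≤ 99 * N := by
      exact_mod_cast h2
    linarith
  · intro a d hd hcon
    have hmem : (a, d) ∈ I := by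
      refine Finset.mem_filter.2 ⟨Finset.mem_univ _, hd, ?_⟩
      intro i hi
      by_contra hlt
      push Not at hlt
      apply hcon i hi
      simp only at hlt
      obtain ⟨m, hm⟩ : ∃ m, m = (a + (i : ZMod N) * d).val := ⟨_, rfl⟩
      have h1 : a + (i : ZMod N) * d = (m : ZMod N) := by
        rw [hm, ZMod.natCast_zmod_val]
      rw [← hm] at hlt
      rw [h1]
      -- `m = u + v` with `u, v < b`
      obtain ⟨u, v, hu, hv, huv⟩ : ∃ u v : ℕ, u < b ∧ v < b ∧ m = u + v := by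
        by_cases hmb : m < b
        · exact ⟨m, 0, hmb, by omega, by omega⟩
        · exact ⟨b - 1, m - (b - 1), by omega, by omega, by omega⟩
      have h2 : (m : ZMod N) = cast (u : ℤ) + cast (v : ℤ) := by
        rw [huv]; simp [cast]
      rw [h2]
      apply Finset.add_mem_add
      · apply Finset.mem_image_of_mem
        apply Finset.mem_union_left
        simp only [B, Finset.mem_Ico]
        omega
      · apply Finset.mem_image_of_mem
        apply Finset.mem_union_left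
        simp only [B, Finset.mem_Ico]
        omega
    have hnd : ¬ Disjoint (S (a, d)) Z := by
      intro hdis
      have : (a, d) ∈ I.filter (fun q => Disjoint (S q) Z) := Finset.mem_filter.2 ⟨hmem, hdis⟩
      rw [hunhit] at this
      simp at this
    rw [Finset.not_disjoint_iff] at hnd
    obtain ⟨x, hxS, hxZ⟩ := hnd
    change x ∈ diffs (V (a, d)) Y at hxS
    unfold diffs at hxS
    rw [Finset.mem_biUnion] at hxS
    obtain ⟨v, hv, hx⟩ := hxS
    rw [Finset.mem_image] at hx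
    obtain ⟨y, hy, hyx⟩ := hx
    change v ∈ (Finset.range K).image _ at hv
    rw [Finset.mem_image] at hv
    obtain ⟨i, hi, hiv⟩ := hv
    rw [Finset.mem_range] at hi
    apply hcon i hi
    have h1 : a + (i : ZMod N) * d = cast x + cast y := by
      have h2 : v = x + y := by linarith
      have h3 : ((((a + (i : ZMod N) * d).val : ℕ) : ℤ) : ZMod N) = ((x + y : ℤ) : ZMod N) := by
        rw [← h2, ← hiv]
      rw [Int.cast_natCast, ZMod.natCast_zmod_val] at h3
      rw [h3]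
      simp [cast]
    rw [h1]
    apply Finset.add_mem_add
    · apply Finset.mem_image_of_mem
      exact Finset.mem_union_right _ (Finset.mem_union_right _ hxZ)
    · apply Finset.mem_image_of_mem
      exact Finset.mem_union_right _ (Finset.mem_union_left _ hy)

theorem eventually_small (η : ℝ) (hη : 0 < η) : ∀ᶠ x : ℝ in atTop,
    2 * x ^ (1 / 2 - η / 4) + 4 * (Real.log x * x ^ (1 / 2 - 3 * η / 4)) + 1 ≤
      1 / 10 * x ^ (1 / 2 : ℝ) := by
  have h1 : ∀ᶠ x : ℝ in atTop, x ^ (-(η / 4)) ≤ 1 / 80 := by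
    have := tendsto_rpow_neg_atTop (y := η / 4) (by positivity)
    exact (this.eventually (gt_mem_nhds (by norm_num : (0 : ℝ) < 1 / 80))).mono fun x hx => hx.le
  have h2 : ∀ᶠ x : ℝ in atTop, ‖Real.log x‖ ≤ 1 / 160 * ‖x ^ (3 * η / 4)‖ :=
    (isLittleO_log_rpow_atTop (by positivity : 0 < 3 * η / 4)).bound (by norm_num)
  have h3 : ∀ᶠ x : ℝ in atTop, 40 ≤ x ^ (1 / 2 : ℝ) :=
    (tendsto_rpow_atTop (by norm_num : (0 : ℝ) < 1 / 2)).eventually_ge_atTop 40
  filter_upwards [h1, h2, h3, eventually_gt_atTop 1] with x hx1 hx2 hx3 hx4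
  have hx0 : 0 < x := by linarith
  have e1 : x ^ (1 / 2 - η / 4) = x ^ (1 / 2 : ℝ) * x ^ (-(η / 4)) := by
    rw [← Real.rpow_add hx0, sub_eq_add_neg]
  have e2 : x ^ (1 / 2 : ℝ) = x ^ (3 * η / 4) * x ^ (1 / 2 - 3 * η / 4) := by
    rw [← Real.rpow_add hx0, add_sub_cancel]
  have hp1 : 0 < x ^ (1 / 2 : ℝ) := Real.rpow_pos_of_pos hx0 _
  have hp2 : 0 < x ^ (3 * η / 4) := Real.rpow_pos_of_pos hx0 _
  have hp3 : 0 < x ^ (1 / 2 - 3 * η / 4) := Real.rpow_pos_of_pos hx0 _
  rw [Real.norm_eq_abs, Real.norm_eq_abs, abs_of_pos hp2] at hx2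
  have hx2' := (le_abs_self _).trans hx2
  have h5 : Real.log x * x ^ (1 / 2 - 3 * η / 4) ≤ 1 / 160 * x ^ (1 / 2 : ℝ) := by
    calc Real.log x * x ^ (1 / 2 - 3 * η / 4)
        ≤ (1 / 160 * x ^ (3 * η / 4)) * x ^ (1 / 2 - 3 * η / 4) := by gcongr
      _ = 1 / 160 * x ^ (1 / 2 : ℝ) := by rw [e2]; ring
  have h6 : x ^ (1 / 2 - η / 4) ≤ 1 / 80 * x ^ (1 / 2 : ℝ) := by
    rw [e1]
    nlinarith
  linarith

/-- For every `η > 0` and every large prime `N` there is `A ⊆ ℤ/N` with `|A| > N/4`,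
`|A + A| ≤ (99/100) N` such that every arithmetic progression in the complement of `A + A` has
length at most `N ^ η`. -/
theorem result : ∀ η : ℝ, 0 < η → ∃ N₀ : ℕ, ∀ N : ℕ, N₀ ≤ N → N.Prime →
    ∃ A : Finset (ZMod N), (N : ℝ) / 4 < A.card ∧ ((A + A).card : ℝ) ≤ 99 / 100 * N ∧
      ∀ (a d : ZMod N) (k : ℕ), d ≠ 0 → k ≤ N →
        (∀ i : ℕ, i < k → a + (i : ZMod N) * d ∉ A + A) → (k : ℝ) ≤ (N : ℝ) ^ η := by
  intro η₀ hη₀
  obtain ⟨η, hη, hη4, hηη⟩ : ∃ η : ℝ, 0 < η ∧ η ≤ 1 / 4 ∧ η ≤ η₀ :=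
    ⟨min η₀ (1 / 4), lt_min hη₀ (by norm_num), min_le_right _ _, min_le_left _ _⟩
  have hev : ∀ᶠ N : ℕ in atTop, 2 * (N : ℝ) ^ (1 / 2 - η / 4) +
      4 * (Real.log N * (N : ℝ) ^ (1 / 2 - 3 * η / 4)) + 1 ≤ 1 / 10 * (N : ℝ) ^ (1 / 2 : ℝ) :=
    tendsto_natCast_atTop_atTop.eventually (eventually_small η hη)
  have hev2 : ∀ᶠ N : ℕ in atTop, 2 ≤ (N : ℝ) ^ (1 / 2 - η / 4) :=
    tendsto_natCast_atTop_atTop.eventually
      ((tendsto_rpow_atTop (by linarith : (0 : ℝ) < 1 / 2 - η / 4)).eventually_ge_atTop 2)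
  obtain ⟨N₀, hN₀⟩ := eventually_atTop.1 (hev.and (hev2.and (eventually_ge_atTop 1000)))
  refine ⟨N₀, fun N hN hNp => ?_⟩
  obtain ⟨h1, h2, h3⟩ := hN₀ N hN
  have hN0 : (0 : ℝ) < N := by exact_mod_cast hNp.pos
  have hN1 : (1 : ℝ) ≤ N := by exact_mod_cast hNp.one_lt.le
  obtain ⟨n, hn⟩ : ∃ n, n = ⌊(N : ℝ) ^ (1 / 2 - η / 4)⌋₊ := ⟨_, rfl⟩
  have hn2 : 2 ≤ n := by rw [hn]; exact Nat.le_floor (by exact_mod_cast h2)
  obtain ⟨p, hp, hnp, hp2n⟩ := Nat.exists_prime_lt_and_le_two_mul n (by omega)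
  obtain ⟨K, hK⟩ : ∃ K, K = ⌊(N : ℝ) ^ η⌋₊ + 1 := ⟨_, rfl⟩
  obtain ⟨t, ht⟩ : ∃ t, t = ⌊4 * (Real.log N * (N : ℝ) ^ (1 / 2 - 3 * η / 4))⌋₊ + 1 := ⟨_, rfl⟩
  have hlog : 0 < Real.log N := Real.log_pos (by
    have : (1000 : ℝ) ≤ N := by exact_mod_cast h3
    linarith)
  have hpp : 0 < (N : ℝ) ^ (1 / 2 - 3 * η / 4) := Real.rpow_pos_of_pos hN0 _
  have hpa : 0 < (N : ℝ) ^ (1 / 2 - η / 4) := Real.rpow_pos_of_pos hN0 _
  have hKp : K ≤ p := by
    rw [hK]
    have : ⌊(N : ℝ) ^ η⌋₊ ≤ n := by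
      rw [hn]
      exact Nat.floor_le_floor (Real.rpow_le_rpow_of_exponent_le hN1 (by linarith))
    omega
  have hpt : 100 * (p + t) ^ 2 ≤ N := by
    have e1 : (p : ℝ) ≤ 2 * (N : ℝ) ^ (1 / 2 - η / 4) := by
      have e2 : (p : ℝ) ≤ 2 * n := by exact_mod_cast hp2n
      have e3 : (n : ℝ) ≤ (N : ℝ) ^ (1 / 2 - η / 4) := by
        rw [hn]; exact Nat.floor_le hpa.le
      linarith
    have e4 : (t : ℝ) ≤ 4 * (Real.log N * (N : ℝ) ^ (1 / 2 - 3 * η / 4)) + 1 := by
      rw [ht]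
      push_cast
      have := Nat.floor_le (show 0 ≤ 4 * (Real.log N * (N : ℝ) ^ (1 / 2 - 3 * η / 4)) by positivity)
      linarith
    have e5 : (p : ℝ) + t ≤ 1 / 10 * (N : ℝ) ^ (1 / 2 : ℝ) := by linarith
    have e6 : ((N : ℝ) ^ (1 / 2 : ℝ)) ^ 2 = N := by
      rw [← Real.rpow_natCast, ← Real.rpow_mul hN0.le]
      norm_num
    have e7 : ((p : ℝ) + t) ^ 2 ≤ (1 / 10 * (N : ℝ) ^ (1 / 2 : ℝ)) ^ 2 := by
      gcongr
    have e8 : (100 : ℝ) * ((p : ℝ) + t) ^ 2 ≤ N := by
      rw [mul_pow, e6] at e7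
      linarith
    exact_mod_cast e8
  have hprob : (N : ℝ) ^ 2 * (1 - (K * p : ℝ) / (2 * N)) ^ t < 1 := by
    obtain ⟨c, hc⟩ : ∃ c, c = (K * p : ℝ) / (2 * N) := ⟨_, rfl⟩
    rw [← hc]
    have hKr : (N : ℝ) ^ η ≤ K := by
      rw [hK]; push_cast; exact (Nat.lt_floor_add_one _).le
    have hpr : (N : ℝ) ^ (1 / 2 - η / 4) ≤ p := by
      have e1 : (n : ℝ) + 1 ≤ p := by exact_mod_cast hnp
      have e2 : (N : ℝ) ^ (1 / 2 - η / 4) < n + 1 := by rw [hn]; exact Nat.lt_floor_add_one _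
      linarith
    have hcl : (N : ℝ) ^ (-(1 / 2 - 3 * η / 4)) / 2 ≤ c := by
      rw [hc]
      have e1 : (N : ℝ) ^ (-(1 / 2 - 3 * η / 4)) * N = (N : ℝ) ^ η * (N : ℝ) ^ (1 / 2 - η / 4) := by
        rw [← Real.rpow_add hN0]
        nth_rewrite 2 [← Real.rpow_one (N : ℝ)]
        rw [← Real.rpow_add hN0]
        congr 1
        ring
      rw [div_le_div_iff₀ (by norm_num) (by positivity)]
      calc (N : ℝ) ^ (-(1 / 2 - 3 * η / 4)) * (2 * N)
          = 2 * ((N : ℝ) ^ (-(1 / 2 - 3 * η / 4)) * N) := by ring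
        _ = 2 * ((N : ℝ) ^ η * (N : ℝ) ^ (1 / 2 - η / 4)) := by rw [e1]
        _ ≤ 2 * (K * p) := by gcongr
        _ = K * p * 2 := by ring
    have htl : 4 * (Real.log N * (N : ℝ) ^ (1 / 2 - 3 * η / 4)) < t := by
      rw [ht]; push_cast; exact Nat.lt_floor_add_one _
    have hct : 2 * Real.log N < c * t := by
      have e1 : (N : ℝ) ^ (-(1 / 2 - 3 * η / 4)) * (N : ℝ) ^ (1 / 2 - 3 * η / 4) = 1 := by
        rw [← Real.rpow_add hN0]; simp
      have hc0 : 0 < (N : ℝ) ^ (-(1 / 2 - 3 * η / 4)) / 2 := by positivity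
      calc 2 * Real.log N = ((N : ℝ) ^ (-(1 / 2 - 3 * η / 4)) / 2) *
            (4 * (Real.log N * (N : ℝ) ^ (1 / 2 - 3 * η / 4))) := by
              linear_combination (-2 * Real.log N) * e1
        _ < ((N : ℝ) ^ (-(1 / 2 - 3 * η / 4)) / 2) * t := by gcongr
        _ ≤ c * t := by gcongr
    have hc1 : c ≤ 1 := by
      rw [hc, div_le_one (by positivity)]
      have : K * p ≤ 2 * N := by nlinarith
      exact_mod_cast this
    have e2 : (1 - c) ^ t ≤ Real.exp (-(c * t)) := by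
      have e3 : 1 - c ≤ Real.exp (-c) := by
        have := Real.add_one_le_exp (-c)
        linarith
      calc (1 - c) ^ t ≤ (Real.exp (-c)) ^ t := pow_le_pow_left₀ (by linarith) e3 t
        _ = Real.exp (-(c * t)) := by
            rw [← Real.exp_nat_mul]; congr 1; ring
    have e4 : Real.exp (-(c * t)) < Real.exp (-(2 * Real.log N)) :=
      Real.exp_lt_exp.2 (by linarith)
    have e5 : Real.exp (-(2 * Real.log N)) = ((N : ℝ) ^ 2)⁻¹ := by
      rw [Real.exp_neg, mul_comm, Real.exp_mul, Real.exp_log hN0]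
      norm_num
    have e6 : (1 - c) ^ t < ((N : ℝ) ^ 2)⁻¹ := by rw [← e5]; exact e2.trans_lt e4
    calc (N : ℝ) ^ 2 * (1 - c) ^ t < (N : ℝ) ^ 2 * ((N : ℝ) ^ 2)⁻¹ := by gcongr
      _ = 1 := mul_inv_cancel₀ (by positivity)
  obtain ⟨A, hA1, hA2, hA3⟩ := construct N p K t hNp hp (by omega) hKp h3 hpt hprob
  refine ⟨A, hA1, hA2, fun a d k hd _ hk => ?_⟩
  have hkK : k < K := by
    by_contra hcon
    push Not at hcon
    exact hA3 a d hd fun i hi => hk i (hi.trans_le hcon)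
  have hk1 : k ≤ ⌊(N : ℝ) ^ η⌋₊ := by omega
  calc (k : ℝ) ≤ ⌊(N : ℝ) ^ η⌋₊ := by exact_mod_cast hk1
    _ ≤ (N : ℝ) ^ η := Nat.floor_le (by positivity)
    _ ≤ (N : ℝ) ^ η₀ := Real.rpow_le_rpow_of_exponent_le hN1 hηη

end Pool.Agent.Results.MP_4e2f3e_nt.ShortProgressions
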